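import Mathlib
import Pool.Agent.V11187.ProjSym

/-!
A convex body in three-dimensional Euclidean space, not an ellipsoid, all of whose hyperplane
projections are linear images of completely symmetric (even 1-symmetric) sets.

The fourth power of the support function of the body is the quartic form
`|x|² (|x|² + x₃²)`.  Restricted to a plane this is a product of two positive definite
quadratic forms, and after a linear change of variables it becomes
`m (p⁴ + q⁴) + l p² q²`, which has all the symmetries of a square.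
-/

open MeasureTheory Metric Module Pool.Agent.V11187.ProjSym

namespace Pool.Agent.Results.MP_b27533_gt.QuarticBody

section Defs

variable {V : Type*} [NormedAddCommGroup V] [InnerProductSpace ℝ V]

/-- The cube centred at the origin with edges of length two parallel to the vectors of the
orthonormal basis `b`. -/
def cube {n : ℕ} (b : OrthonormalBasis (Fin n) ℝ V) : Set V :=
  {x | ∀ i, |inner ℝ (b i) x| ≤ 1}

/-- `A` is 1-symmetric: its symmetry group contains the symmetry group of a cube centred at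
the origin. -/
def IsOneSymmetric (A : Set V) : Prop :=
  ∃ (n : ℕ) (b : OrthonormalBasis (Fin n) ℝ V), Pool.Agent.V11187.ProjSym.Sym (cube b) ≤
    Pool.Agent.V11187.ProjSym.Sym A

/-- `B` is the image under an invertible linear map of a set that is both completely symmetric
and 1-symmetric. -/
def IsLinearImageOneSymmetricCS [FiniteDimensional ℝ V] (B : Set V) : Prop :=
  ∃ (A : Set V) (T : V ≃ₗ[ℝ] V), CompletelySymmetric A ∧ IsOneSymmetric A ∧ B = T '' A

end Defs

section General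

variable {V : Type*} [NormedAddCommGroup V] [InnerProductSpace ℝ V]

theorem exists_adapted (b' : OrthonormalBasis (Fin 2) ℝ V) (ℓ : V →ₗ[ℝ] ℝ) :
    ∃ b : OrthonormalBasis (Fin 2) ℝ V, ℓ (b 0) = 0 := by
  by_cases hp : ℓ (b' 0) = 0
  · exact ⟨b', hp⟩
  · set p := ℓ (b' 0) with hp'
    set s := ℓ (b' 1) with hs'
    have hpos : 0 < p ^ 2 + s ^ 2 := by positivity
    have hρ : 0 < Real.sqrt (p ^ 2 + s ^ 2) := Real.sqrt_pos.mpr hpos
    set ρ := Real.sqrt (p ^ 2 + s ^ 2) with hρ'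
    have hρ2 : ρ ^ 2 = p ^ 2 + s ^ 2 := Real.sq_sqrt hpos.le
    obtain ⟨R, hR⟩ := exists_isRot b' (s / ρ) (-p / ρ)
      (by rw [div_pow, div_pow, ← add_div, hρ2]; field_simp; ring)
      (div_ne_zero (neg_ne_zero.mpr hp) hρ.ne')
    refine ⟨b'.map R, ?_⟩
    rw [OrthonormalBasis.map_apply, hR.r0, map_add, map_smul, map_smul, ← hp', ← hs']
    simp only [smul_eq_mul]
    field_simp
    ring

theorem exists_diag (b : OrthonormalBasis (Fin 2) ℝ V) (α β : ℝ) (hα : α ≠ 0) (hβ : β ≠ 0) :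
    ∃ D : V ≃ₗ[ℝ] V, ∀ p q : ℝ, D (p • b 0 + q • b 1) = (α * p) • b 0 + (β * q) • b 1 := by
  let w : Fin 2 → ℝˣ := ![Units.mk0 α hα, Units.mk0 β hβ]
  let D : V ≃ₗ[ℝ] V := b.toBasis.equiv (b.toBasis.unitsSMul w) (Equiv.refl _)
  refine ⟨D, fun p q => ?_⟩
  have h0 : D (b 0) = α • b 0 := by
    have := b.toBasis.equiv_apply 0 (b.toBasis.unitsSMul w) (Equiv.refl _)
    rw [OrthonormalBasis.coe_toBasis] at this
    change D (b 0) = _ at this
    rw [this]
    simp [w, Basis.unitsSMul_apply, Units.smul_def]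
  have h1 : D (b 1) = β • b 1 := by
    have := b.toBasis.equiv_apply 1 (b.toBasis.unitsSMul w) (Equiv.refl _)
    rw [OrthonormalBasis.coe_toBasis] at this
    change D (b 1) = _ at this
    rw [this]
    simp [w, Basis.unitsSMul_apply, Units.smul_def]
  rw [map_add, map_smul, map_smul, h0, h1]
  module

theorem convexBody_image [FiniteDimensional ℝ V] (T : V ≃ₗ[ℝ] V) (A : Set V)
    (hA : IsConvexBody A) : IsConvexBody (T '' A) := by
  have hT : (T : V → V) = T.toContinuousLinearEquiv.toHomeomorph := rfl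
  refine ⟨hA.1.image T.toContinuousLinearEquiv.continuous, ?_, ?_⟩
  · exact hA.2.1.linear_image T.toLinearMap
  · rw [hT, ← Homeomorph.image_interior]
    exact hA.2.2.image _

/-- The symmetry group of the square: an isometry preserving the square is a linear map sending
the vertices `b 0 + b 1` and `b 0 - b 1` to orthogonal vertices. -/
theorem sym_square (b : OrthonormalBasis (Fin 2) ℝ V) (T : V ≃ᵢ V) 
    (hT : T ∈ Pool.Agent.V11187.ProjSym.Sym (cube b)) :
    ∃ v0 v1 w0 w1 : ℝ, (v0 = 1 ∨ v0 = -1) ∧ (v1 = 1 ∨ v1 = -1) ∧ (w0 = 1 ∨ w0 = -1) ∧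
      (w1 = 1 ∨ w1 = -1) ∧ v0 * w0 + v1 * w1 = 0 ∧
      (∃ L : V ≃ₗᵢ[ℝ] V, (∀ x, T x = L x) ∧ L (b 0 + b 1) = v0 • b 0 + v1 • b 1 ∧
        L (b 0 - b 1) = w0 • b 0 + w1 • b 1) := by
  have hTC : T '' cube b = cube b := hT
  have hcube : ∀ p q : ℝ, p • b 0 + q • b 1 ∈ cube b ↔ |p| ≤ 1 ∧ |q| ≤ 1 := by
    intro p q
    have h0 : inner ℝ (b 0) (p • b 0 + q • b 1) = p := by
      have := inner_comb b 1 0 p q
      simpa using this
    have h1 : inner ℝ (b 1) (p • b 0 + q • b 1) = q := by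
      have := inner_comb b 0 1 p q
      simpa using this
    constructor
    · intro h
      have e0 := h 0
      have e1 := h 1
      rw [h0] at e0
      rw [h1] at e1
      exact ⟨e0, e1⟩
    · intro h i
      fin_cases i
      · change |inner ℝ (b 0) _| ≤ 1
        rw [h0]; exact h.1
      · change |inner ℝ (b 1) _| ≤ 1
        rw [h1]; exact h.2
  -- `T` is affine
  let TA : V ≃ᵃⁱ[ℝ] V := T.toRealAffineIsometryEquiv
  have hTA : ∀ x, T x = TA x := fun x => by simp [TA]
  let L : V ≃ₗᵢ[ℝ] V := TA.linearIsometryEquiv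
  have hTL : ∀ x, T x = L x + T 0 := by
    intro x
    have := TA.map_vadd 0 x
    simp only [vadd_eq_add, add_zero] at this
    rw [hTA, hTA, this]
  -- `T 0 = 0`
  have hsymm : ∀ x ∈ cube b, -x ∈ cube b := by
    intro x hx i
    rw [inner_neg_right, abs_neg]
    exact hx i
  have hstep : ∀ x ∈ cube b, x + (2 : ℝ) • T 0 ∈ cube b := by
    intro x hx
    have h1 := hsymm x hx
    rw [← hTC] at h1
    obtain ⟨y, hy, hyx⟩ := h1
    have h2 : T (-y) ∈ cube b := by rw [← hTC]; exact ⟨-y, hsymm y hy, rfl⟩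
    have h3 : T (-y) = x + (2 : ℝ) • T 0 := by
      rw [hTL] at hyx ⊢
      rw [map_neg]
      have : x = -(L y + T 0) := by rw [hyx, neg_neg]
      rw [this, two_smul]
      abel
    rwa [← h3]
  have hT0 : T 0 = 0 := by
    obtain ⟨p, q, hpq⟩ := exists_comb b (T 0)
    have hiter : ∀ n : ℕ, ((2 * n : ℝ)) • T 0 ∈ cube b := by
      intro n
      induction n with
      | zero =>
        have := (hcube 0 0).mpr ⟨by simp, by simp⟩
        simpa using this
      | succ n ih =>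
        have := hstep _ ih
        rw [← add_smul] at this
        convert this using 2
        push_cast
        ring
    have hp : ∀ n : ℕ, |2 * (n : ℝ) * p| ≤ 1 ∧ |2 * (n : ℝ) * q| ≤ 1 := by
      intro n
      have := hiter n
      rw [hpq, smul_add, smul_smul, smul_smul, hcube] at this
      exact this
    have hp0 : p = 0 := by
      by_contra hne
      have hpos : 0 < |p| := abs_pos.mpr hne
      obtain ⟨n, hn⟩ := exists_nat_gt (|p|)⁻¹
      have h1 := (hp n).1
      rw [abs_mul, abs_mul, abs_two, Nat.abs_cast] at h1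
      have h2 : 1 < (n : ℝ) * |p| := by
        rwa [inv_lt_iff_one_lt_mul₀ hpos] at hn
      nlinarith
    have hq0 : q = 0 := by
      by_contra hne
      have hpos : 0 < |q| := abs_pos.mpr hne
      obtain ⟨n, hn⟩ := exists_nat_gt (|q|)⁻¹
      have h1 := (hp n).2
      rw [abs_mul, abs_mul, abs_two, Nat.abs_cast] at h1
      have h2 : 1 < (n : ℝ) * |q| := by
        rwa [inv_lt_iff_one_lt_mul₀ hpos] at hn
      nlinarith
    rw [hpq, hp0, hq0]; simp
  have hTL' : ∀ x, T x = L x := by intro x; rw [hTL, hT0, add_zero]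
  have hvert : ∀ x ∈ cube b, ‖x‖ ^ 2 = 2 → ∃ p q : ℝ, (p = 1 ∨ p = -1) ∧ (q = 1 ∨ q = -1) ∧
      x = p • b 0 + q • b 1 := by
    intro x hx hn
    obtain ⟨p, q, hpq⟩ := exists_comb b x
    rw [hpq] at hx hn
    rw [norm_sq_comb] at hn
    obtain ⟨h1, h2⟩ := (hcube p q).mp hx
    have h1' : p ^ 2 ≤ 1 := by rw [← sq_abs]; nlinarith [abs_nonneg p]
    have h2' : q ^ 2 ≤ 1 := by rw [← sq_abs]; nlinarith [abs_nonneg q]
    refine ⟨p, q, ?_, ?_, hpq⟩
    · have : (p - 1) * (p + 1) = 0 := by nlinarith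
      rcases mul_eq_zero.mp this with h | h
      · left; linarith
      · right; linarith
    · have : (q - 1) * (q + 1) = 0 := by nlinarith
      rcases mul_eq_zero.mp this with h | h
      · left; linarith
      · right; linarith
  have e1 : b 0 + b 1 = (1 : ℝ) • b 0 + (1 : ℝ) • b 1 := by simp
  have e2 : b 0 - b 1 = (1 : ℝ) • b 0 + (-1 : ℝ) • b 1 := by simp [sub_eq_add_neg]
  have m1 : L (b 0 + b 1) ∈ cube b := by
    rw [← hTL', ← hTC]
    refine ⟨_, ?_, rfl⟩
    rw [e1, hcube]; simp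
  have m2 : L (b 0 - b 1) ∈ cube b := by
    rw [← hTL', ← hTC]
    refine ⟨_, ?_, rfl⟩
    rw [e2, hcube]; simp
  have n1 : ‖L (b 0 + b 1)‖ ^ 2 = 2 := by
    rw [L.norm_map, e1, norm_sq_comb]; norm_num
  have n2 : ‖L (b 0 - b 1)‖ ^ 2 = 2 := by
    rw [L.norm_map, e2, norm_sq_comb]; norm_num
  obtain ⟨v0, v1, hv0, hv1, hv⟩ := hvert _ m1 n1
  obtain ⟨w0, w1, hw0, hw1, hw⟩ := hvert _ m2 n2
  refine ⟨v0, v1, w0, w1, hv0, hv1, hw0, hw1, ?_, L, hTL', hv, hw⟩
  have h3 : inner ℝ (L (b 0 + b 1)) (L (b 0 - b 1)) = (0 : ℝ) := by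
    rw [L.inner_map_map, e1, e2, inner_comb]; norm_num
  rw [hv, hw, inner_comb] at h3
  exact h3

/-- A function of the form `F (p⁴ + q⁴) (p² q²)` is invariant under the symmetries of the
square. -/
theorem invariant_of_sym_square (b : OrthonormalBasis (Fin 2) ℝ V) (g : V → ℝ)
    (F : ℝ → ℝ → ℝ) (hg : ∀ p q : ℝ, g (p • b 0 + q • b 1) = F (p ^ 4 + q ^ 4) (p ^ 2 * q ^ 2))
    (T : V ≃ᵢ V) (hT : T ∈ Pool.Agent.V11187.ProjSym.Sym (cube b)) :
    T '' Wulff g = Wulff g := by
  obtain ⟨v0, v1, w0, w1, hv0, hv1, hw0, hw1, h0, L, hL, hv, hw⟩ := sym_square b T hT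
  have himg : T '' Wulff g = L '' Wulff g := by
    apply Set.image_congr
    intro x _
    exact hL x
  rw [himg]
  apply wulff_image_isometry
  intro x
  obtain ⟨p, q, rfl⟩ := exists_comb b x
  have hx : p • b 0 + q • b 1 = ((p + q) / 2) • (b 0 + b 1) + ((p - q) / 2) • (b 0 - b 1) := by
    module
  have hLx : L (p • b 0 + q • b 1) =
      ((p + q) / 2 * v0 + (p - q) / 2 * w0) • b 0 +
        ((p + q) / 2 * v1 + (p - q) / 2 * w1) • b 1 := by
    rw [hx, map_add, map_smul, map_smul, hv, hw]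
    module
  rw [hLx, hg, hg]
  rcases hv0 with rfl | rfl <;> rcases hv1 with rfl | rfl <;> rcases hw0 with rfl | rfl <;>
    rcases hw1 with rfl | rfl <;> first
      | (exfalso; norm_num at h0; done)
      | (congr 1 <;> ring)

end General

/-- Three-dimensional Euclidean space. -/
abbrev E3 : Type := EuclideanSpace ℝ (Fin 3)

/-- The quartic form. -/
noncomputable def qq (x : E3) : ℝ := ‖x‖ ^ 2 * (‖x‖ ^ 2 + (x 2) ^ 2)

/-- The support function of the example. -/
noncomputable def hh (x : E3) : ℝ := (qq x) ^ (1 / 4 : ℝ)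

/-- Weights. -/
noncomputable def wt : Fin 9 → ℝ := ![1/6, 1/6, 1/4, 1/4, 1/4, 1/4, 1/6, 1/6, 1]

/-- Linear forms. -/
noncomputable def lf (x : E3) : Fin 9 → ℝ :=
  ![x 0 + x 1, x 0 - x 1, x 0 + x 2, x 0 - x 2, x 1 + x 2, x 1 - x 2, x 0, x 1, x 2]

theorem wt_nonneg (i : Fin 9) : 0 ≤ wt i := by
  fin_cases i <;> simp [wt]

theorem lf_add (x y : E3) (i : Fin 9) : lf (x + y) i = lf x i + lf y i := by
  fin_cases i <;> simp [lf] <;> ring

theorem norm_sq_eq3 (x : E3) : ‖x‖ ^ 2 = (x 0) ^ 2 + (x 1) ^ 2 + (x 2) ^ 2 := by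
  rw [EuclideanSpace.norm_sq_eq, Fin.sum_univ_three]
  simp

theorem sum_eq (x : E3) : ∑ i, wt i * (lf x i) ^ 4 = qq x := by
  unfold qq
  rw [norm_sq_eq3]
  simp [Fin.sum_univ_succ, wt, lf]
  ring

theorem sum_eq' (x : E3) :
    ∑ i, |(wt i) ^ (1 / 4 : ℝ) * lf x i| ^ (4 : ℝ) = qq x := by
  rw [← sum_eq]
  apply Finset.sum_congr rfl
  intro i _
  have h5 : ((wt i) ^ (1 / 4 : ℝ)) ^ 4 = wt i := by
    rw [← Real.rpow_natCast, ← Real.rpow_mul (wt_nonneg i)]
    norm_num
  have h6 : ∀ r : ℝ, |r| ^ (4 : ℝ) = r ^ 4 := by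
    intro r
    have h4 : (4 : ℝ) = ((4 : ℕ) : ℝ) := by norm_num
    rw [h4, Real.rpow_natCast, Even.pow_abs (by decide)]
  rw [h6, mul_pow, h5]

theorem qq_nonneg (x : E3) : 0 ≤ qq x := by unfold qq; positivity

theorem hh_nonneg (x : E3) : 0 ≤ hh x := Real.rpow_nonneg (qq_nonneg x) _

theorem hh_pow (x : E3) : (hh x) ^ 4 = qq x := by
  unfold hh
  rw [← Real.rpow_natCast, ← Real.rpow_mul (qq_nonneg x)]
  norm_num

theorem hh_add (x y : E3) : hh (x + y) ≤ hh x + hh y := by
  have h := Real.Lp_add_le (Finset.univ : Finset (Fin 9))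
    (fun i => (wt i) ^ (1 / 4 : ℝ) * lf x i) (fun i => (wt i) ^ (1 / 4 : ℝ) * lf y i)
    (p := 4) (by norm_num)
  rw [sum_eq', sum_eq'] at h
  have h2 : ∑ i, |(wt i) ^ (1 / 4 : ℝ) * lf x i + (wt i) ^ (1 / 4 : ℝ) * lf y i| ^ (4 : ℝ) =
      qq (x + y) := by
    rw [← sum_eq']
    apply Finset.sum_congr rfl
    intro i _
    rw [lf_add, mul_add]
  rw [h2] at h
  exact h

theorem hh_eq_of_pow (x : E3) (r : ℝ) (hr : 0 ≤ r) (h : qq x = r ^ 4) : hh x = r := by
  have h1 : (hh x) ^ 4 = r ^ 4 := by rw [hh_pow, h]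
  exact (pow_left_inj₀ (hh_nonneg x) hr (by norm_num)).mp h1

theorem hh_hom (c : ℝ) (hc : 0 < c) (x : E3) : hh (c • x) = c * hh x := by
  apply hh_eq_of_pow _ _ (mul_nonneg hc.le (hh_nonneg x))
  rw [mul_pow, hh_pow]
  unfold qq
  rw [norm_smul, Real.norm_of_nonneg hc.le]
  simp only [PiLp.smul_apply, smul_eq_mul]
  ring

theorem hh_bound (x : E3) : 1 * ‖x‖ ≤ hh x ∧ hh x ≤ 2 * ‖x‖ := by
  have h1 : (x 2) ^ 2 ≤ ‖x‖ ^ 2 := by
    rw [norm_sq_eq3]; nlinarith [sq_nonneg (x 0), sq_nonneg (x 1)]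
  constructor
  · have : (1 * ‖x‖) ^ 4 ≤ (hh x) ^ 4 := by
      rw [hh_pow, one_mul]
      unfold qq
      nlinarith [sq_nonneg ‖x‖, sq_nonneg (x 2), mul_nonneg (sq_nonneg ‖x‖) (sq_nonneg (x 2))]
    exact (pow_le_pow_iff_left₀ (by positivity) (hh_nonneg x) (by norm_num)).mp this
  · have : (hh x) ^ 4 ≤ (2 * ‖x‖) ^ 4 := by
      rw [hh_pow]
      unfold qq
      nlinarith [sq_nonneg ‖x‖, sq_nonneg (x 2),
        mul_le_mul_of_nonneg_left h1 (sq_nonneg ‖x‖), sq_nonneg (‖x‖ ^ 2)]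
    exact (pow_le_pow_iff_left₀ (hh_nonneg x) (by positivity) (by norm_num)).mp this

/-- The body. -/
noncomputable def K0 : Set E3 := Wulff hh

theorem K0_body : IsConvexBody K0 :=
  wulff_convexBody hh 1 2 (by norm_num) (by norm_num) (fun x => (hh_bound x).1)
    (fun x => (hh_bound x).2)

theorem hh_neg (x : E3) : hh (-x) = hh x := by
  unfold hh qq
  rw [norm_neg]
  have : (-x) 2 = - x 2 := by simp
  rw [this, neg_sq]

theorem K0_not_ellipsoid : ¬ IsEllipsoid K0 := by
  rintro ⟨T, hK⟩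
  let L : E3 →ₗ[ℝ] E3 := (T.linear : E3 →ₗ[ℝ] E3)
  have hT : ∀ x, T x = L x + T 0 := by
    intro x
    have := T.map_vadd 0 x
    simpa [L] using this
  have hle : ∀ x, hh x ≤ inner ℝ (T 0) x + ‖LinearMap.adjoint L x‖ := by
    intro x
    obtain ⟨z, hz, hzx⟩ := wulff_attained hh hh_hom hh_add x
    have hz' : z ∈ T '' closedBall (0 : E3) 1 := by rw [← hK]; exact hz
    obtain ⟨y, hy, rfl⟩ := hz'
    rw [mem_closedBall_zero_iff] at hy
    rw [← hzx, hT, inner_add_left, ← LinearMap.adjoint_inner_right]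
    have h2 : inner ℝ y (LinearMap.adjoint L x) ≤ ‖y‖ * ‖LinearMap.adjoint L x‖ :=
      real_inner_le_norm _ _
    have h3 : ‖y‖ * ‖LinearMap.adjoint L x‖ ≤ 1 * ‖LinearMap.adjoint L x‖ := by gcongr
    linarith
  have hge : ∀ x, inner ℝ (T 0) x + ‖LinearMap.adjoint L x‖ ≤ hh x := by
    intro x
    by_cases hx : LinearMap.adjoint L x = 0
    · rw [hx, norm_zero, add_zero]
      have hz : T 0 ∈ K0 := by rw [hK]; exact ⟨0, by simp, rfl⟩
      exact hz x
    · have hn : 0 < ‖LinearMap.adjoint L x‖ := norm_pos_iff.mpr hx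
      have hz : T ((‖LinearMap.adjoint L x‖)⁻¹ • LinearMap.adjoint L x) ∈ K0 := by
        rw [hK]
        refine ⟨_, ?_, rfl⟩
        rw [mem_closedBall_zero_iff, norm_smul, norm_inv, norm_norm, inv_mul_cancel₀ hn.ne']
      have h1 := hz x
      rw [hT, inner_add_left, ← LinearMap.adjoint_inner_right, real_inner_smul_left,
        real_inner_self_eq_norm_sq] at h1
      have h2 : (‖LinearMap.adjoint L x‖)⁻¹ * ‖LinearMap.adjoint L x‖ ^ 2 =
          ‖LinearMap.adjoint L x‖ := by field_simp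
      rw [h2] at h1
      linarith
  have heq : ∀ x, hh x = inner ℝ (T 0) x + ‖LinearMap.adjoint L x‖ :=
    fun x => le_antisymm (hle x) (hge x)
  have heven : ∀ x, hh x = ‖LinearMap.adjoint L x‖ := by
    intro x
    have h1 := heq x
    have h2 := heq (-x)
    rw [hh_neg, inner_neg_right, map_neg, norm_neg] at h2
    linarith
  have hpar : ∀ x y, (hh (x + y)) ^ 2 + (hh (x - y)) ^ 2 = 2 * ((hh x) ^ 2 + (hh y) ^ 2) := by
    intro x y
    rw [heven, heven, heven, heven, map_add, map_sub]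
    have := parallelogram_law_with_norm ℝ (LinearMap.adjoint L x) (LinearMap.adjoint L y)
    nlinarith
  let x : E3 := EuclideanSpace.single 0 1
  let y : E3 := EuclideanSpace.single 2 1
  have p := hpar x y
  have q1 : qq x = 1 := by
    unfold qq; rw [norm_sq_eq3]; simp [x]
  have q2 : qq y = 2 := by
    unfold qq; rw [norm_sq_eq3]; simp [y]; norm_num
  have q3 : qq (x + y) = 6 := by
    unfold qq; rw [norm_sq_eq3]; simp [x, y]; norm_num
  have q4 : qq (x - y) = 6 := by
    unfold qq; rw [norm_sq_eq3]; simp [x, y]; norm_num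
  rw [← hh_pow] at q1 q2 q3 q4
  set A := (hh (x + y)) ^ 2 with hA
  set A' := (hh (x - y)) ^ 2 with hA'
  set B := (hh x) ^ 2 with hB
  set C := (hh y) ^ 2 with hC
  have a1 : A ^ 2 = 6 := by rw [hA, ← q3]; ring
  have a2 : A' ^ 2 = 6 := by rw [hA', ← q4]; ring
  have a3 : B ^ 2 = 1 := by rw [hB, ← q1]; ring
  have a4 : C ^ 2 = 2 := by rw [hC, ← q2]; ring
  have nA : 0 ≤ A := sq_nonneg _
  have nA' : 0 ≤ A' := sq_nonneg _
  have nB : 0 ≤ B := sq_nonneg _
  have nC : 0 ≤ C := sq_nonneg _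
  have hBB : B = 1 := by nlinarith
  have hAA : A = A' := by
    have : (A - A') * (A + A') = 0 := by ring_nf; linarith
    rcases mul_eq_zero.mp this with h | h
    · linarith
    · nlinarith
  rw [← hAA, hBB] at p
  have h1 : A = 1 + C := by linarith
  rw [h1] at a1
  have h2 : C = 3 / 2 := by nlinarith
  rw [h2] at a4
  norm_num at a4

/-- The planar statement. -/
theorem planar (W : Submodule ℝ E3) (hW : finrank ℝ W = 2) :
    IsLinearImageOneSymmetricCS (W.orthogonalProjectionOnto '' K0) := by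
  let b' : OrthonormalBasis (Fin 2) ℝ W := (stdOrthonormalBasis ℝ W).reindex (finCongr hW)
  let ℓ : W →ₗ[ℝ] ℝ := (EuclideanSpace.proj (𝕜 := ℝ) (2 : Fin 3)).toLinearMap ∘ₗ W.subtype
  obtain ⟨b, hb⟩ := exists_adapted b' ℓ
  have hb0 : (b 0 : E3) 2 = 0 := hb
  set t : ℝ := (b 1 : E3) 2 with ht
  -- the parameter
  set lam : ℝ := 1 + t ^ 2 with hlam
  have hlampos : 0 < lam := by positivity
  set μ : ℝ := lam ^ (1 / 8 : ℝ) with hμ
  have hμpos : 0 < μ := Real.rpow_pos_of_pos hlampos _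
  have hμ8 : μ ^ 8 = lam := by
    rw [hμ, ← Real.rpow_natCast, ← Real.rpow_mul hlampos.le]
    norm_num
  obtain ⟨D, hD⟩ := exists_diag b μ μ⁻¹ hμpos.ne' (inv_ne_zero hμpos.ne')
  let g : W → ℝ := fun y => hh ((D y : W) : E3)
  have hcoord : ∀ y0 y1 : ℝ, ((y0 • b 0 + y1 • b 1 : W) : E3) 2 = t * y1 := by
    intro y0 y1
    simp [hb0, ht]
    ring
  have hnorm : ∀ y0 y1 : ℝ, ‖((y0 • b 0 + y1 • b 1 : W) : E3)‖ ^ 2 = y0 ^ 2 + y1 ^ 2 :=
    norm_sq_comb b
  have hqq : ∀ y0 y1 : ℝ, qq ((y0 • b 0 + y1 • b 1 : W) : E3) =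
      (y0 ^ 2 + y1 ^ 2) * (y0 ^ 2 + lam * y1 ^ 2) := by
    intro y0 y1
    unfold qq
    rw [hnorm, hcoord, hlam]
    ring
  have hg : ∀ p q : ℝ, g (p • b 0 + q • b 1) =
      (fun X Y : ℝ => (μ ^ 4 * X + (μ ^ 8 + 1) * Y) ^ (1 / 4 : ℝ))
        (p ^ 4 + q ^ 4) (p ^ 2 * q ^ 2) := by
    intro p q
    change hh ((D (p • b 0 + q • b 1) : W) : E3) = _
    rw [hD]
    unfold hh
    rw [hqq, ← hμ8]
    congr 1
    field_simp
    ring
  have hinv : ∀ T ∈ Pool.Agent.V11187.ProjSym.Sym (cube b), T '' Wulff g = Wulff g :=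
    fun T hT => invariant_of_sym_square b g
      (fun X Y : ℝ => (μ ^ 4 * X + (μ ^ 8 + 1) * Y) ^ (1 / 4 : ℝ)) hg T hT
  have hself : ∀ x y : W, inner ℝ (D x) y = inner ℝ x (D y) := by
    intro x y
    obtain ⟨p, q, rfl⟩ := exists_comb b x
    obtain ⟨r, s, rfl⟩ := exists_comb b y
    rw [hD, hD, inner_comb b, inner_comb b]
    ring
  have himg : Wulff (fun y : W => hh (y : E3)) = D.symm '' Wulff g := by
    ext z
    constructor
    · intro hz
      refine ⟨D z, fun y => ?_, D.symm_apply_apply z⟩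
      rw [hself]
      exact hz (D y)
    · rintro ⟨w, hw, rfl⟩ y
      have h1 := hw (D.symm y)
      have h2 : g (D.symm y) = hh (y : E3) := by
        change hh ((D (D.symm y) : W) : E3) = _
        rw [D.apply_symm_apply]
      rw [h2] at h1
      have h3 : inner ℝ (D.symm w) y = inner ℝ w (D.symm y) := by
        have := hself (D.symm w) (D.symm y)
        rw [D.apply_symm_apply, D.apply_symm_apply] at this
        exact this.symm
      change inner ℝ (D.symm w) y ≤ hh (y : E3)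
      rw [h3]
      exact h1
  have hproj := proj_wulff hh hh_hom hh_add W
  have hbodyW : IsConvexBody (Wulff (fun y : W => hh (y : E3))) :=
    wulff_convexBody _ 1 2 (by norm_num) (by norm_num) (fun x => (hh_bound (x : E3)).1)
      (fun x => (hh_bound (x : E3)).2)
  have hbody : IsConvexBody (Wulff g) := by
    have h1 : Wulff g = D '' Wulff (fun y : W => hh (y : E3)) := by
      rw [himg, ← Set.image_comp]
      have : (D ∘ D.symm : W → W) = id := by
        funext x; simp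
      rw [this, Set.image_id]
    rw [h1]
    exact convexBody_image D _ hbodyW
  obtain ⟨R, hR⟩ := exists_isRot b 0 1 (by norm_num) one_ne_zero
  have hgR : ∀ y, g (R y) = g y := by
    intro y
    obtain ⟨p, q, rfl⟩ := exists_comb b y
    have hRy : R (p • b 0 + q • b 1) = (-q) • b 0 + p • b 1 := by
      rw [map_add, map_smul, map_smul, hR.r0, hR.r1]
      module
    rw [hRy, hg, hg]
    congr 1 <;> ring
  refine ⟨Wulff g, D.symm, ?_, ⟨2, b, fun T hT => hinv T hT⟩, ?_⟩
  · exact hR.completelySymmetric (Wulff g) hbody (wulff_image_isometry g R hgR)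
  · rw [← himg]; exact hproj

/-- There is a convex body `K` in three-dimensional Euclidean space that is not an ellipsoid
and each of whose hyperplane projections `K | u^⊥` is a linear image of a subset of `u^⊥` that
is completely symmetric and 1-symmetric. -/
theorem result : ∃ K : Set (EuclideanSpace ℝ (Fin 3)), IsConvexBody K ∧ ¬ IsEllipsoid K ∧
    ∀ u : EuclideanSpace ℝ (Fin 3), ‖u‖ = 1 → IsLinearImageOneSymmetricCS (Proj u K) := by
  refine ⟨K0, K0_body, K0_not_ellipsoid, fun u hu => ?_⟩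
  have : Fact (finrank ℝ (EuclideanSpace ℝ (Fin 3)) = 2 + 1) := ⟨by simp⟩
  exact planar _ (Submodule.finrank_orthogonal_span_singleton (by
    intro h; rw [h, norm_zero] at hu; norm_num at hu))

end Pool.Agent.Results.MP_b27533_gt.QuarticBody
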